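import Pool.Agent.TH995.KB.Lang
import Pool.Agent.W619.Y.LA1

/-! Open varieties covered by images of an open curve which is not of log general type: products and
quotients. -/

set_option autoImplicit false
set_option linter.overlappingInstances false
set_option linter.unusedSectionVars false

universe u v

open scoped TensorProduct
open FF IntermediateField Pool.Agent.W619.PQ Pool.Agent.W619.PL Pool.Agent.W619.TW
  Pool.Agent.W603.LV Pool.Agent.W619.X Pool.Agent.W619.Y Pool.Agent.W904.PG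

namespace Pool.Agent.TH995.KL

section step1

variable {k : Type v} {L : Type u} [Field k] [IsAlgClosed k] [Field L] [Algebra k L]

theorem prodInj' (M P : IntermediateField k L) (d n : ℕ) (hM : Algebra.trdeg k M = d)
    (hL : Algebra.trdeg k L = (d + n : ℕ)) (hP : Algebra.trdeg k P ≤ n) (hsup : M ⊔ P = ⊤) :
    ∃ Φ : (P ⊗[k] M) →ₐ[k] L, Function.Injective Φ ∧ (∀ z : L, ∃ x y, z = Φ x / Φ y) ∧
      ∀ p : P, Φ (p ⊗ₜ[k] 1) = p := by
  obtain ⟨s, hs⟩ := exists_isTranscendenceBasis k M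
  have h1 := T2 (k := k) (P := P) (M := M) (L := L) M.val _ hs (indep M P d n hM hL hP hsup s hs)
  let Φ' := Algebra.TensorProduct.productLeftAlgHom (Algebra.ofId P L) M.val
  let Φ : (P ⊗[k] M) →ₐ[k] L := Φ'.restrictScalars k
  have hΦt : ∀ p m, Φ (p ⊗ₜ[k] m) = (p : L) * (m : L) := by
    intro p m
    show Algebra.TensorProduct.productLeftAlgHom (Algebra.ofId P L) M.val (p ⊗ₜ[k] m) = _
    simp [Algebra.ofId_apply]
  refine ⟨Φ, h1, ?_, fun p => by rw [hΦt]; simp⟩
  intro z
  have hz : z ∈ IntermediateField.adjoin k ((M : Set L) ∪ (P : Set L)) := by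
    have h2 : M ⊔ P ≤ IntermediateField.adjoin k ((M : Set L) ∪ (P : Set L)) :=
      sup_le (fun z hz => IntermediateField.subset_adjoin _ _ (Or.inl hz))
        (fun z hz => IntermediateField.subset_adjoin _ _ (Or.inr hz))
    rw [hsup] at h2
    exact h2 (show z ∈ (⊤ : IntermediateField k L) from trivial)
  rw [IntermediateField.mem_adjoin_iff_div] at hz
  obtain ⟨r, hr, t, ht, rfl⟩ := hz
  have h3 : Algebra.adjoin k ((M : Set L) ∪ (P : Set L)) ≤ Φ.range := by
    refine Algebra.adjoin_le ?_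
    rintro z (hz | hz)
    · exact ⟨(1 : P) ⊗ₜ[k] ⟨z, hz⟩, (hΦt _ _).trans (by simp)⟩
    · exact ⟨(⟨z, hz⟩ : P) ⊗ₜ[k] (1 : M), (hΦt _ _).trans (by simp)⟩
  obtain ⟨a, ha⟩ := h3 hr
  obtain ⟨b, hb⟩ := h3 ht
  exact ⟨a, b, by rw [← ha, ← hb]; rfl⟩

end step1

/-- `L` embeds into `Ω` if it is the field of fractions of `P ⊗ M`. -/
theorem embed' {k : Type v} {P M L R Ω : Type u} [Field k] [IsAlgClosed k] [Field P] [Field M]
    [Field L] [Field R] [Field Ω] [Algebra k P] [Algebra k M] [Algebra k L] [Algebra k R]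
    [Algebra k Ω] (Φ : (P ⊗[k] M) →ₐ[k] L) (hΦ : Function.Injective Φ)
    (hsurj : ∀ z : L, ∃ x y, z = Φ x / Φ y) (j : M →ₐ[k] R)
    (θ : (P ⊗[k] R) →ₐ[k] Ω) (hθ : Function.Injective θ) :
    ∃ e : L →ₐ[k] Ω, ∀ p : P, e (Φ (p ⊗ₜ[k] 1)) = θ (p ⊗ₜ[k] 1) := by
  let i0 : Algebra (P ⊗[k] M) L := Φ.toRingHom.toAlgebra
  have hmap : ∀ x : P ⊗[k] M, algebraMap (P ⊗[k] M) L x = Φ x := fun _ => rfl
  have i1 : IsScalarTower k (P ⊗[k] M) L := IsScalarTower.of_algebraMap_eq fun c => by
    rw [hmap, AlgHom.commutes]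
  have i2 : FaithfulSMul (P ⊗[k] M) L := (faithfulSMul_iff_algebraMap_injective _ _).2 hΦ
  have i3 : IsFractionRing (P ⊗[k] M) L := IsFractionRing.of_field (P ⊗[k] M) L hsurj
  let Ψ : (P ⊗[k] M) →ₐ[k] (P ⊗[k] R) := Algebra.TensorProduct.map (AlgHom.id k P) j
  have hΨ : Function.Injective Ψ := by
    have := Module.Flat.lTensor_preserves_injective_linearMap (M := P) j.toLinearMap
      j.toRingHom.injective
    exact this
  refine ⟨IsFractionRing.liftAlgHom (A := P ⊗[k] M) (K := L) (g := θ.comp Ψ) (hθ.comp hΨ),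
    fun p => ?_⟩
  rw [← hmap]
  have h1 := IsFractionRing.lift_algebraMap (A := P ⊗[k] M) (K := L)
    (g := (θ.comp Ψ : (P ⊗[k] M) →+* Ω)) (hθ.comp hΨ) (p ⊗ₜ[k] 1)
  refine Eq.trans h1 ?_
  change θ (Algebra.TensorProduct.map (AlgHom.id k P) j (p ⊗ₜ[k] 1)) = _
  rw [Algebra.TensorProduct.map_tmul, map_one, AlgHom.id_apply]

section

variable {k : Type v} [Field k]

/-- If `Y` is covered by images of a fixed rational or elliptic curve, then so is its product with
an open variety. -/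
theorem low_prod [IsAlgClosed k] {L : Type u} [Field L] [Algebra k L]
    (M P : IntermediateField k L) (d n : ℕ) (hM : Algebra.trdeg k M = d)
    (hL : Algebra.trdeg k L = (d + n : ℕ)) (hP : Algebra.trdeg k P ≤ n) (hsup : M ⊔ P = ⊤)
    (hPe : Algebra.EssFiniteType k P) (hC : IsRatEllCovered k M d)
    (BL : Place k L → Prop) (hBL : ∀ w, BL w → ∃ z ∈ P, w.ord z ≠ 0) :
    IsLowCovered k L (d + n) BL := by
  obtain ⟨L', iF, iA, M', E, hess, htr, hE, hsup', hL', hre, ⟨j⟩⟩ := hC
  obtain ⟨Φ, hΦ, hsurj, hΦP⟩ := prodInj' M P d n hM hL hP hsup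
  have hdom : IsDomain (P ⊗[k] L') := Pool.Agent.W904.PG.dom
  let Ω := FractionRing (P ⊗[k] L')
  let θ : (P ⊗[k] L') →ₐ[k] Ω := IsScalarTower.toAlgHom k (P ⊗[k] L') Ω
  obtain ⟨e, he⟩ := embed' Φ hΦ hsurj j θ
    (IsFractionRing.injective (P ⊗[k] L') (FractionRing (P ⊗[k] L')))
  let iP : P →ₐ[k] Ω := θ.comp Algebra.TensorProduct.includeLeft
  let iR : L' →ₐ[k] Ω := θ.comp Algebra.TensorProduct.includeRight
  let iM : M' →ₐ[k] Ω := iR.comp M'.val
  have eE : E ≃ₐ[k] E.map iR := IntermediateField.equivMap E iR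
  have hE' : IsFF k (E.map iR) := KB.ff_equiv eE hE
  have hMr : iM.fieldRange = M'.map iR := by
    ext z
    constructor
    · rintro ⟨m, rfl⟩
      exact ⟨m, m.2, rfl⟩
    · rintro ⟨m, hm, rfl⟩
      exact ⟨⟨m, hm⟩, rfl⟩
  have hrange : iR.fieldRange = M'.map iR ⊔ E.map iR := by
    rw [← IntermediateField.map_sup, hsup']
    ext z
    constructor
    · rintro ⟨m, rfl⟩
      exact ⟨m, trivial, rfl⟩
    · rintro ⟨m, -, rfl⟩
      exact ⟨m, rfl⟩
  have htop : (iP.fieldRange ⊔ iM.fieldRange) ⊔ E.map iR = ⊤ := by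
    rw [hMr, sup_assoc, ← hrange]
    have hten : ∀ x : P ⊗[k] L', θ x ∈ iP.fieldRange ⊔ iR.fieldRange := by
      intro x
      induction x using TensorProduct.induction_on with
      | zero => rw [map_zero]; exact zero_mem _
      | tmul p g =>
        have : p ⊗ₜ[k] g = (p ⊗ₜ[k] (1 : L')) * ((1 : P) ⊗ₜ[k] g) := by
          rw [Algebra.TensorProduct.tmul_mul_tmul, mul_one, one_mul]
        rw [this, map_mul]
        exact mul_mem ((le_sup_left : iP.fieldRange ≤ _) ⟨p, rfl⟩)
          ((le_sup_right : iR.fieldRange ≤ _) ⟨g, rfl⟩)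
      | add x y hx hy => rw [map_add]; exact add_mem hx hy
    refine eq_top_iff.2 fun z _ => ?_
    obtain ⟨x, y, -, rfl⟩ := IsFractionRing.div_surjective (A := P ⊗[k] L') z
    exact div_mem (hten x) (hten y)
  have hd : Algebra.trdeg k M' + 1 = d := htr
  have htrN : Algebra.trdeg k (iP.fieldRange ⊔ iM.fieldRange : IntermediateField k Ω) + 1 ≤
      (d + n : ℕ) := by
    have h1 := Pool.Agent.W904.PG.trdeg_sup iP iM
    calc Algebra.trdeg k (iP.fieldRange ⊔ iM.fieldRange : IntermediateField k Ω) + 1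
        ≤ (Algebra.trdeg k P + Algebra.trdeg k M') + 1 := add_le_add h1 le_rfl
      _ = Algebra.trdeg k P + d := by rw [add_assoc, hd]
      _ ≤ n + d := add_le_add hP le_rfl
      _ = (d + n : ℕ) := by rw [add_comm]; push_cast; rfl
  have hΩle : Algebra.trdeg k Ω ≤ (d + n : ℕ) := by
    have h1 := Pool.Agent.W904.PG.trdeg_sup
      (iP.fieldRange ⊔ iM.fieldRange : IntermediateField k Ω).val (E.map iR).val
    rw [IntermediateField.fieldRange_val, IntermediateField.fieldRange_val, htop,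
      hE'.trdeg] at h1
    have h2 : Algebra.trdeg k (⊤ : IntermediateField k Ω) = Algebra.trdeg k Ω :=
      IntermediateField.topEquiv.trdeg_eq
    rw [h2] at h1
    exact h1.trans htrN
  have hΩ : Algebra.trdeg k Ω = (d + n : ℕ) := by
    refine le_antisymm hΩle ?_
    have h3 := trdeg_le_of_injective e e.toRingHom.injective
    rw [hL] at h3
    exact h3
  have hMe : Algebra.EssFiniteType k (iP.fieldRange ⊔ iM.fieldRange : IntermediateField k Ω) :=
    Pool.Agent.W904.PG.ess_sup iP iM hPe hess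
  refine ⟨Ω, inferInstance, inferInstance, iP.fieldRange ⊔ iM.fieldRange, E.map iR, ∅, e, hMe, ?_,
    hE', htop, ?_, ?_, ?_⟩
  · have h5 := KB.tr_compl _ _ hE' htop (d + n) hΩ htrN
    exact_mod_cast h5
  · exact_mod_cast hΩ
  · rcases hre with hr | hr
    · exact Or.inl ⟨KB.rat_equiv eE hr, fun q hq => absurd hq (Set.notMem_empty q)⟩
    · exact Or.inr ⟨rfl, KB.ell_equiv eE hr⟩
  · intro w _ v a ha hv hb
    obtain ⟨z, hz, hz0⟩ := hBL v hb
    have h6 : e z ∈ iP.fieldRange ⊔ iM.fieldRange := by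
      refine (le_sup_left : iP.fieldRange ≤ _) ⟨⟨z, hz⟩, ?_⟩
      change θ ((⟨z, hz⟩ : P) ⊗ₜ[k] (1 : L')) = e z
      rw [← he, hΦP]
    have hz' : z ≠ 0 := by rintro rfl; exact hz0 v.ord_zero
    have h7 : w.ord (algebraMap _ Ω (⟨e z, h6⟩ : (iP.fieldRange ⊔ iM.fieldRange :
        IntermediateField k Ω))) = 0 := by
      apply w.ord_const
      intro h
      apply hz'
      have h8 : e z = 0 := congrArg Subtype.val h
      exact (map_eq_zero_iff e e.toRingHom.injective).1 h8
    have h9 : w.ord (e z) = a * v.ord z := hv z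
    change w.ord (e z) = 0 at h7
    rw [h7] at h9
    rcases mul_eq_zero.1 h9.symm with h10 | h10
    · exact absurd h10 (by exact_mod_cast ha.ne')
    · exact hz0 h10

/-- Being covered by images of an open curve which is not of log general type passes to
quotients. -/
theorem low_down {L : Type u} [Field L] [Algebra k L] (r : ℕ)
    (G : Subgroup (L ≃ₐ[k] L)) (Bd : Place k (fixedField G) → Prop) (BL : Place k L → Prop)
    (h : ∀ w, BdUp Bd w → BL w) (hA : IsLowCovered k L r BL) :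
    IsLowCovered k (fixedField G) r Bd := by
  obtain ⟨L', iF, iA, M, E, T, φ, h1, h2, h3, h4, h5, h6, h7⟩ := hA
  refine ⟨L', iF, iA, M, E, T, φ.comp (fixedField G).val, h1, h2, h3, h4, h5, h6,
    fun w hX v e he hv hb => ?_⟩
  obtain ⟨t, ht0, ht⟩ := v.surj
  have he' : (0 : ℤ) < e := by exact_mod_cast he
  obtain ⟨w', a, ha, hw'⟩ := exists_restrict w (φ : L →+* L') (fun c hc => by
    change w.ord (φ (algebraMap k L c)) = 0
    rw [φ.commutes, IsScalarTower.algebraMap_apply k M L']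
    exact w.ord_const (by simpa using hc)) (f0 := (t : L)) (by
      have h4 := hv t
      rw [ht, mul_one] at h4
      change w.ord (φ (t : L)) = e at h4
      change w.ord (φ (t : L)) ≠ 0
      rw [h4]
      omega)
  have ha' : (0 : ℤ) < a := by exact_mod_cast ha
  have h5 : (a : ℤ) * w'.ord (t : L) = e := by
    rw [← hw']
    have h4 := hv t
    rw [ht, mul_one] at h4
    exact h4
  have h6 : 0 < w'.ord (t : L) := by
    by_contra h
    have : (a : ℤ) * w'.ord (t : L) ≤ 0 := mul_nonpos_of_nonneg_of_nonpos ha'.le (not_lt.1 h)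
    omega
  refine h7 w hX w' a ha (fun f => hw' f) (h w' ⟨v, (w'.ord (t : L)).toNat, ⟨by omega,
    fun f => ?_⟩, hb⟩)
  rw [Int.toNat_of_nonneg h6.le]
  have h7 : (a : ℤ) * w'.ord (f : L) = e * v.ord f := by
    rw [← hw']
    exact hv f
  apply mul_left_cancel₀ ha'.ne'
  change (a : ℤ) * w'.ord (f : L) = _
  rw [h7, ← h5]
  ring

end

end Pool.Agent.TH995.KL
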