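import Pool.Agent.TH995.KL.Cov

/-! Quotients of products of a variety and open curves: log general type, or covered by images of an
open curve which is not of log general type. -/

set_option autoImplicit false
set_option linter.overlappingInstances false
set_option linter.unusedSectionVars false

universe u v

open FF IntermediateField Pool.Agent.W619.PQ Pool.Agent.W619.PL Pool.Agent.W619.TW
  Pool.Agent.W603.LV Pool.Agent.W619.X Pool.Agent.W619.Y Pool.Agent.W904.PG

namespace Pool.Agent.TH995.KL

variable {k : Type v} {L : Type u} [Field k] [CharZero k] [IsAlgClosed k] [Field L] [Algebra k L]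

theorem bd_nontriv {n : ℕ} (G : Subgroup (L ≃ₐ[k] L)) (σ : G →* Equiv.Perm (Fin n))
    (F : Fin n → IntermediateField k L) (w : Place k L) (i : Fin n)
    (p : Place k ↥(F i ⊓ fixedField (stb G σ i))) (e : ℕ) (hp : Over w p e) :
    ∃ z ∈ F i, w.ord z ≠ 0 := by
  obtain ⟨t, ht0, ht⟩ := p.surj
  refine ⟨(t : L), t.2.1, ?_⟩
  have h2 := hp.2 t
  rw [ht, mul_one] at h2
  have h3 := hp.1
  change w.ord (t : L) = e at h2
  rw [h2]
  omega

theorem bd_up {n : ℕ} (G : Subgroup (L ≃ₐ[k] L)) [Finite G] (σ : G →* Equiv.Perm (Fin n))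
    (F : Fin n → IntermediateField k L)
    (hσ : ∀ (g : G) i, ∀ z ∈ F i, (g : L ≃ₐ[k] L) z ∈ F (σ g i))
    (B : ∀ i, Set (Place k ↥(F i ⊓ fixedField (stb G σ i)))) (hinv : BdInv G σ F B) :
    ∀ w, BdUp (BdQ G σ F B) w → BdL G σ F B w := by
  rintro w ⟨v, e, hwv, w', e', hwv', hL⟩
  obtain ⟨g, hg⟩ := pCONJ k L G v w' w e' e hwv' hwv
  exact bdL_inv hσ B hinv g w' w hg hL

/-- The open product is covered if `Y` is. -/
theorem low_left (d n : ℕ) (hn : Algebra.trdeg k L = (d + n : ℕ)) (M : IntermediateField k L)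
    (hM : Algebra.trdeg k M = d) (F : Fin n → IntermediateField k L) (hF : ∀ i, IsFF k (F i))
    (hsup : M ⊔ (⨆ i, F i) = ⊤) (G : Subgroup (L ≃ₐ[k] L)) (σ : G →* Equiv.Perm (Fin n))
    (B : ∀ i, Set (Place k ↥(F i ⊓ fixedField (stb G σ i))))
    (hC : IsRatEllCovered k M d) : IsLowCovered k L (d + n) (BdL G σ F B) := by
  have hfg : (⨆ i, F i).FG := IntermediateField.fg_iSup fun i =>
    IntermediateField.essFiniteType_iff.1 (hF i).ess
  have h1 : ∀ i, ∃ f : F i, Transcendental k f := fun i => (hF i).exists_transcendental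
  choose f hf using h1
  have h2 : (⨆ i, F i) ≤ acl k (Set.range fun i => (f i : L)) := by
    refine iSup_le fun i => ?_
    have h3 := le_acl_of_basis (F i) _ (IsFF.basis (hf i))
    refine h3.trans (acl_mono ?_)
    rintro _ ⟨_, rfl⟩
    exact ⟨i, rfl⟩
  have hPe : Algebra.EssFiniteType k (⨆ i, F i : IntermediateField k L) :=
    IntermediateField.essFiniteType_iff.2 hfg
  have hP : Algebra.trdeg k (⨆ i, F i : IntermediateField k L) ≤ n := by
    refine (trdeg_le_acl _ _ h2).trans ?_
    have h4 := Cardinal.mk_range_le_lift (f := fun i : Fin n => (f i : L))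
    simpa using h4
  refine low_prod M _ d n hM hn hP hsup hPe hC _ ?_
  rintro w ⟨i, p, hp, e, he⟩
  obtain ⟨z, hz, hz0⟩ := bd_nontriv G σ F w i p e he
  exact ⟨z, le_iSup F i hz, hz0⟩

/-- The open product is covered if one of the open curves is not of log general type. -/
theorem low_right (d n : ℕ) (hn : Algebra.trdeg k L = (d + n : ℕ)) (M : IntermediateField k L)
    [hMe : Algebra.EssFiniteType k M] (hM : Algebra.trdeg k M = d)
    (F : Fin n → IntermediateField k L) (hF : ∀ i, IsFF k (F i))
    (hsup : M ⊔ (⨆ i, F i) = ⊤) (G : Subgroup (L ≃ₐ[k] L)) (σ : G →* Equiv.Perm (Fin n))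
    (B : ∀ i, Set (Place k ↥(F i ⊓ fixedField (stb G σ i)))) (i : Fin n)
    (hi : IsLow (F i) (TT (F i) inf_le_left (B i))) :
    IsLowCovered k L (d + n) (BdL G σ F B) := by
  obtain ⟨s, hs⟩ := exists_isTranscendenceBasis k M
  have hcard : Cardinal.mk s = d := by rw [← hM, hs.cardinalMk_eq_trdeg]
  have h1 : ∀ i, ∃ f : F i, Transcendental k f := fun i => (hF i).exists_transcendental
  choose f hf using h1
  let M' : IntermediateField k L := M ⊔ ⨆ j : {j : Fin n // j ≠ i}, F j
  let S : Set L := (Set.range fun x : s => ((x : M) : L)) ∪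
    (Set.range fun j : {j : Fin n // j ≠ i} => (f j : L))
  have h2 : M' ≤ acl k S := by
    refine sup_le ?_ (iSup_le fun j => ?_)
    · exact (le_acl_of_basis M _ hs).trans (acl_mono Set.subset_union_left)
    · have h3 := le_acl_of_basis (F j) _ (IsFF.basis (hf j))
      refine h3.trans (acl_mono ?_)
      rintro _ ⟨_, rfl⟩
      exact Or.inr ⟨j, rfl⟩
  have hcj : Cardinal.mk {j : Fin n // j ≠ i} + 1 = n := by
    have h4 : Fintype.card {j : Fin n // j ≠ i} + 1 = n := by
      have h5 : Fintype.card {j : Fin n // j ≠ i} = Fintype.card (Fin n) - 1 := by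
        rw [Fintype.card_subtype_compl, Fintype.card_subtype_eq]
      have h6 : 0 < n := Fin.pos i
      rw [h5, Fintype.card_fin]
      omega
    rw [Cardinal.mk_fintype]
    exact_mod_cast h4
  have h3 : Algebra.trdeg k M' + 1 ≤ (d + n : ℕ) := by
    have h4 : Algebra.trdeg k M' ≤ Cardinal.mk S := trdeg_le_acl _ _ h2
    have h5 : Cardinal.mk S ≤
        (d : Cardinal.{u}) + Cardinal.lift.{u} (Cardinal.mk {j : Fin n // j ≠ i}) := by
      refine (Cardinal.mk_union_le _ _).trans (add_le_add ?_ ?_)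
      · rw [← hcard]; exact Cardinal.mk_range_le
      · have h6 := Cardinal.mk_range_le_lift (f := fun j : {j : Fin n // j ≠ i} => (f j : L))
        simpa using h6
    calc Algebra.trdeg k M' + 1
        ≤ ((d : Cardinal.{u}) + Cardinal.lift.{u} (Cardinal.mk {j : Fin n // j ≠ i})) + 1 :=
          add_le_add (h4.trans h5) le_rfl
      _ = (d : Cardinal.{u}) + n := by
          rw [add_assoc]
          congr 1
          have := congrArg Cardinal.lift.{u} hcj
          simpa using this
      _ = ((d + n : ℕ) : Cardinal.{u}) := by push_cast; rfl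
  have htop : M' ⊔ F i = ⊤ := by
    rw [← hsup]
    refine le_antisymm (sup_le (sup_le le_sup_left (iSup_le fun j => ?_)) ?_)
      (sup_le (le_sup_left.trans le_sup_left) (iSup_le fun j => ?_))
    · exact (le_iSup F j).trans le_sup_right
    · exact (le_iSup F i).trans le_sup_right
    · by_cases hj : j = i
      · rw [hj]; exact le_sup_right
      · exact ((le_iSup (fun j : {j : Fin n // j ≠ i} => F j) ⟨j, hj⟩).trans
          le_sup_right).trans le_sup_left
  have hess : Algebra.EssFiniteType k M' := by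
    rw [IntermediateField.essFiniteType_iff]
    refine IntermediateField.fg_sup (IntermediateField.essFiniteType_iff.1 hMe)
      (IntermediateField.fg_iSup fun j => IntermediateField.essFiniteType_iff.1 (hF j).ess)
  refine ⟨L, inferInstance, inferInstance, M', F i, TT (F i) inf_le_left (B i), AlgHom.id k L, hess,
    ?_, hF i, htop, ?_, hi, ?_⟩
  · have h5 := KB.tr_compl M' (F i) (hF i) htop (d + n) hn h3
    exact_mod_cast h5
  · exact_mod_cast hn
  · rintro w hw v e he hwv ⟨j, p, hpB, a, hvp⟩
    have he' : (0 : ℤ) < e := by exact_mod_cast he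
    by_cases hj : j = i
    · subst hj
      obtain ⟨q, b, c, hq1, hq2⟩ := pREST k L (F j) (F j ⊓ fixedField (stb G σ j)) inf_le_left v p
        a hvp
      refine hw q ⟨p, hpB, c, hq2⟩ (e * b) (Nat.mul_pos he hq1.1) fun z => ?_
      have h6 := hwv (z : L)
      have h7 := hq1.2 z
      change w.ord (z : L) = e * v.ord (z : L) at h6
      change v.ord (z : L) = b * q.ord z at h7
      rw [h6, h7]
      push_cast
      ring
    · obtain ⟨z, hz, hz0⟩ := bd_nontriv G σ F v j p a hvp
      have hz' : z ≠ 0 := by rintro rfl; exact hz0 v.ord_zero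
      have h4 : z ∈ M' := ((le_iSup (fun j : {j : Fin n // j ≠ i} => F j) ⟨j, hj⟩).trans
        le_sup_right) hz
      have h5 : w.ord (algebraMap M' L ⟨z, h4⟩) = 0 := by
        apply w.ord_const
        intro h
        exact hz' (congrArg Subtype.val h)
      have h6 := hwv z
      change w.ord z = e * v.ord z at h6
      change w.ord z = 0 at h5
      rw [h5] at h6
      rcases mul_eq_zero.1 h6.symm with h10 | h10
      · omega
      · exact hz0 h10

/-- The main result. -/
theorem ggl (d n : ℕ) (hn : Algebra.trdeg k L = (d + n : ℕ)) (M : IntermediateField k L)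
    [Algebra.EssFiniteType k M] (hM : Algebra.trdeg k M = d)
    (F : Fin n → IntermediateField k L) (hF : ∀ i, IsFF k (F i))
    (hsup : M ⊔ (⨆ i, F i) = ⊤)
    (G : Subgroup (L ≃ₐ[k] L)) [Finite G] (σ : G →* Equiv.Perm (Fin n))
    (hσ : ∀ (g : G) i, ∀ z ∈ F i, (g : L ≃ₐ[k] L) z ∈ F (σ g i))
    (B : ∀ i, Set (Place k ↥(F i ⊓ fixedField (stb G σ i)))) (hB : ∀ i, (B i).Finite)
    (hinv : BdInv G σ F B) (h : LogMixedPos G σ F B)
    (hY : d = 0 ∨ KodTr k M d d ∨ IsRatEllCovered k M d) :
    (IsRatEllCovered k M d ∨ ∃ i, IsLow (F i) (TT (F i) inf_le_left (B i))) ∧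
      IsLowCovered k (fixedField G) (d + n) (BdQ G σ F B) ∨
    (¬ (IsRatEllCovered k M d ∨ ∃ i, IsLow (F i) (TT (F i) inf_le_left (B i)))) ∧
      KodGe k (fixedField G) (d + n) (BdQ G σ F B) (d + n) := by
  by_cases hc : IsRatEllCovered k M d ∨ ∃ i, IsLow (F i) (TT (F i) inf_le_left (B i))
  · refine Or.inl ⟨hc, low_down _ G _ (BdL G σ F B) (bd_up G σ F hσ B hinv) ?_⟩
    rcases hc with hC | ⟨i, hi⟩
    · exact low_left d n hn M hM F hF hsup G σ B hC
    · exact low_right d n hn M hM F hF hsup G σ B i hi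
  · refine Or.inr ⟨hc, ?_⟩
    have hfin : ∀ i, (TT (F i) inf_le_left (B i)).Finite := fun i =>
      (deg_iff (F i) (stb G σ i) (stb_stable (G := G) (σ := σ) hσ i) (B i) (hB i)).1
    have hneg : ∀ i, ¬ IsNegative inf_le_left (B i) := fun i hi =>
      hc (Or.inr ⟨i, low_of_negative _ hi⟩)
    have hflat : ∀ i, ¬ IsFlat inf_le_left (B i) := fun i hi =>
      hc (Or.inr ⟨i, low_of_flat _ (hfin i) hi⟩)
    have hK : KodTr k M d d := by
      rcases hY with rfl | h3 | h3
      · exact KB.kodTr_zero
      · exact h3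
      · exact absurd (Or.inl h3) hc
    have h4 := ((abLM d n hn M hM F (alg_of_top M F hsup) G σ hσ B hB hinv h).1 hneg d hK).2
    have h5 : {i | ¬ IsFlat inf_le_left (B i)} = Set.univ := Set.eq_univ_of_forall fun i => hflat i
    rw [h5, Set.ncard_univ, Nat.card_eq_fintype_card, Fintype.card_fin] at h4
    exact h4

end Pool.Agent.TH995.KL
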